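import Pool.Agent.H17.Cone.Stmts

set_option autoImplicit false

namespace Pool.Agent.H17.Cone

namespace INQ

/-- The first inequality for small `s`. -/
lemma small1 (s u d : ℝ) (hs : 0 < s) (hs1 : s ≤ 7 / 30) (hu : 0 ≤ u) :
    30 * s * u + 8 * s ^ 2 < 7 * (s + u) + 27 * u ^ 2 + 15 * d ^ 2 := by
  nlinarith [mul_nonneg hu (sub_nonneg.2 hs1), mul_nonneg hs.le (sub_nonneg.2 hs1), sq_nonneg u,
    sq_nonneg d]

lemma small2 (s u d : ℝ) (hs : 7 / 30 ≤ s) (hs1 : s ≤ 6 / 10) :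
    30 * s * u + 8 * s ^ 2 < 7 * (s + u) + 27 * u ^ 2 + 15 * d ^ 2 := by
  nlinarith [sq_nonneg (u - (30 * s - 7) / 54), mul_nonneg (sub_nonneg.2 hs) (sub_nonneg.2 hs1),
    sq_nonneg d]

/-- The second inequality for `s ≤ 1`. -/
lemma mid (s u d : ℝ) (hs : 7 / 30 ≤ s) (hs1 : s ≤ 1) :
    112 + 4320 * s * u + 567 * s ^ 2 < 1265 * s + 1535 * u + 3375 * u ^ 2 + 1755 * d ^ 2 := by
  nlinarith [sq_nonneg (u - (4320 * s - 1535) / 6750), mul_nonneg (sub_nonneg.2 hs) (sub_nonneg.2 hs1),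
    sq_nonneg d]

lemma high0 (s d : ℝ) (hs : 1 ≤ s) (hs1 : s ≤ 1237 / 1000) (hd : 0 ≤ d)
    (hr : (s + d) / 2 + (s ^ 2 - d ^ 2) / 4 ≤ 1) :
    (4320 * s - 2885) * (1 - (s - d) / 2 - (s ^ 2 - d ^ 2) / 4) <
    (1 + (s + d) / 2) * (1265 * s - 247 - 567 * s ^ 2 + 1755 * d ^ 2) := by
  have h1 : 445 ≤ 1265 * s - 247 - 567 * s ^ 2 := by
    nlinarith [mul_nonneg (sub_nonneg.2 hs) (sub_nonneg.2 hs1)]
  have h2 : (1 + (s + d) / 2) * (445 + 1755 * d ^ 2) ≤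
      (1 + (s + d) / 2) * (1265 * s - 247 - 567 * s ^ 2 + 1755 * d ^ 2) := by
    apply mul_le_mul_of_nonneg_left
    · linarith
    · linarith
  refine lt_of_lt_of_le ?_ h2
  nlinarith [sq_nonneg (d - 1 / 10), mul_nonneg (sub_nonneg.2 hs) (sub_nonneg.2 hs1),
    mul_nonneg (sub_nonneg.2 hs) hd, mul_nonneg (mul_nonneg (sub_nonneg.2 hs) hd) hd,
    mul_nonneg hd (mul_nonneg hd hd)]

/-- The second inequality for `1 ≤ s`. -/
lemma high (b1 b2 b3 : ℝ) (h2 : b3 ≤ b2) (h1 : b2 ≤ b1) (h0 : 0 ≤ b3) (hb : b1 ≤ 1)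
    (hc : b1 * (1 + b2) ≤ 1) (he : (b2 + b3) * (1 + b1) ≤ 1) (hs : 1 ≤ b1 + b2) :
    112 + 4320 * (b1 + b2) * b3 + 567 * (b1 + b2) ^ 2 <
        1265 * (b1 + b2) + 1535 * b3 + 3375 * b3 ^ 2 + 1755 * (b1 - b2) ^ 2 := by
  have hs1 : b1 + b2 ≤ 1237 / 1000 := by
    have hb2 : 0 ≤ b2 := h0.trans h2
    have hd : 0 ≤ (b1 - b2) * (2 - (b1 - b2)) := by
      apply mul_nonneg
      · linarith
      · linarith
    nlinarith
  have key := high0 (b1 + b2) (b1 - b2) hs hs1 (by linarith) (by nlinarith)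
  have hq : (4320 * (b1 + b2) - 2885) * ((1 + b1) * b3) ≤
      (4320 * (b1 + b2) - 2885) * (1 - b2 - b1 * b2) := by
    apply mul_le_mul_of_nonneg_left
    · nlinarith
    · linarith
  have e1 : 1 - (b1 + b2 - (b1 - b2)) / 2 - ((b1 + b2) ^ 2 - (b1 - b2) ^ 2) / 4 =
      1 - b2 - b1 * b2 := by ring
  have e2 : 1 + (b1 + b2 + (b1 - b2)) / 2 = 1 + b1 := by ring
  rw [e1, e2] at key
  have h3 : (1 + b1) * ((4320 * (b1 + b2) - 2885) * b3) <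
      (1 + b1) * (1265 * (b1 + b2) - 247 - 567 * (b1 + b2) ^ 2 + 1755 * (b1 - b2) ^ 2) := by
    have : (1 + b1) * ((4320 * (b1 + b2) - 2885) * b3) =
      (4320 * (b1 + b2) - 2885) * ((1 + b1) * b3) := by ring
    rw [this]
    exact lt_of_le_of_lt hq key
  have hpos : 0 < 1 + b1 := by linarith
  have h4 := lt_of_mul_lt_mul_left h3 hpos.le
  nlinarith [sq_nonneg (b3 - 1 / 5)]

/-- The first inequality for small `b2`. -/
lemma thin (b1 b2 b3 : ℝ) (h0 : 0 ≤ b3) (h2 : b3 ≤ b2) (hb : b1 ≤ 1) (hs : 6 / 10 ≤ b1 + b2)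
    (ht : b2 ≤ 1 / 8) :
    30 * (b1 + b2) * b3 + 8 * (b1 + b2) ^ 2 <
        7 * (b1 + b2 + b3) + 27 * b3 ^ 2 + 15 * (b1 - b2) ^ 2 := by
  have hb1 : 475 / 1000 ≤ b1 := by linarith
  have hb2 : 0 ≤ b2 := h0.trans h2
  have k1 : 0 ≤ (b2 - b3) * (30 * (b1 + b2) - 7) := by
    apply mul_nonneg
    · linarith
    · linarith
  have k2 : 0 ≤ (1 / 8 - b2) * b1 := by
    apply mul_nonneg
    · linarith
    · linarith
  have k3 : 0 ≤ (1 / 8 - b2) * b2 := mul_nonneg (by linarith) hb2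
  nlinarith [sq_nonneg b3, sq_nonneg (b1 - 1 / 2)]

end INQ

open INQ in
theorem inq_thm : INQStmt := by
  intro b1 b2 b3 h0 h2 h1 hb hc he
  have hb2 : 0 ≤ b2 := h0.trans h2
  have hb1 : 0 ≤ b1 := hb2.trans h1
  by_cases hz : b1 = 0
  · left
    have e2 : b2 = 0 := le_antisymm (hz ▸ h1) hb2
    have e3 : b3 = 0 := le_antisymm (e2 ▸ h2) h0
    subst hz
    subst e2
    subst e3
    refine ⟨by norm_num, fun h => absurd h (lt_irrefl _)⟩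
  have hp : 0 < b1 := lt_of_le_of_ne hb1 (Ne.symm hz)
  have strict : (30 * (b1 + b2) * b3 + 8 * (b1 + b2) ^ 2 <
        7 * (b1 + b2 + b3) + 27 * b3 ^ 2 + 15 * (b1 - b2) ^ 2) →
      ((30 * (b1 + b2) * b3 + 8 * (b1 + b2) ^ 2 ≤
        7 * (b1 + b2 + b3) + 27 * b3 ^ 2 + 15 * (b1 - b2) ^ 2 ∧
      (0 < b1 → 30 * (b1 + b2) * b3 + 8 * (b1 + b2) ^ 2 <
        7 * (b1 + b2 + b3) + 27 * b3 ^ 2 + 15 * (b1 - b2) ^ 2)) ∨
      (112 + 4320 * (b1 + b2) * b3 + 567 * (b1 + b2) ^ 2 <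
        1265 * (b1 + b2) + 1535 * b3 + 3375 * b3 ^ 2 + 1755 * (b1 - b2) ^ 2 ∧
      4 / 10 * b1 ≤ 2 / 10 + 16 / 10 * b2 + b3)) :=
    fun h => Or.inl ⟨h.le, fun _ => h⟩
  by_cases hs1 : b1 + b2 ≤ 7 / 30
  · exact strict (small1 (b1 + b2) b3 (b1 - b2) (by linarith) hs1 h0)
  by_cases hs2 : b1 + b2 ≤ 6 / 10
  · exact strict (small2 (b1 + b2) b3 (b1 - b2) (not_le.1 hs1).le hs2)
  by_cases ht : b2 ≤ 1 / 8
  · exact strict (thin b1 b2 b3 h0 h2 hb (not_le.1 hs2).le ht)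
  right
  constructor
  · by_cases hs3 : b1 + b2 ≤ 1
    · exact mid (b1 + b2) b3 (b1 - b2) (not_le.1 hs1).le hs3
    · exact high b1 b2 b3 h2 h1 h0 hb hc he (not_le.1 hs3).le
  · have := not_le.1 ht
    linarith

end Pool.Agent.H17.Cone
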