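import Pool.Agent.H17.Cone.Stmts

set_option autoImplicit false

namespace Pool.Agent.H17.Cone

open MeasureTheory Filter Topology Module

theorem trg_thm : TRGStmt := by
  intro K a x b e hK hF hb
  apply Set.Subset.antisymm
  · intro z hz
    have h0 : 0 ≤ x 0 z := by have := hF.low 0 z hz; rw [hb 0] at this; linarith
    have h1 : 0 ≤ x 1 z := by have := hF.low 1 z hz; rw [hb 1] at this; linarith
    have h2 : 0 ≤ x 2 z := by have := hF.low 2 z hz; rw [hb 2] at this; linarith
    have hs := hF.sum z
    have hr := hF.repr z
    have key : ∑ i : Fin 3, x i z • a i ∈ convexHull ℝ ({a 0, a 1, a 2} : Set E2) := by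
      apply (convex_convexHull ℝ ({a 0, a 1, a 2} : Set E2)).sum_mem
      · intro i _
        fin_cases i
        · exact h0
        · exact h1
        · exact h2
      · rw [Fin.sum_univ_three]; exact hs
      · intro i _
        apply subset_convexHull
        fin_cases i <;> simp
    rw [Fin.sum_univ_three, hr] at key
    exact key
  · apply convexHull_min _ hK
    intro z hz
    simp only [Set.mem_insert_iff, Set.mem_singleton_iff] at hz
    rcases hz with rfl | rfl | rfl
    · exact hF.mem 0
    · exact hF.mem 1
    · exact hF.mem 2

end Pool.Agent.H17.Cone
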